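import Pool.Agent.H77.GR.Stm

/-!
# Module EX2: the dimensions of the logarithmic fields of large degree over the fraction field and over the
residue field agree
-/

set_option autoImplicit false

open MvPolynomial Module Pool.Agent.H77.TF Pool.Agent.H77.GR

namespace Pool.Agent.H69.GR

/-- the exponents of degree `m` -/
abbrev Ex (m : ℕ) : Type := {d : Fin 3 →₀ ℕ // d.degree = m}

instance (m : ℕ) : Finite (Ex m) :=
  Set.Finite.subset (Finsupp.finite_of_degree_le (σ := Fin 3) m) (fun _ hd => le_of_eq hd)

noncomputable instance (m : ℕ) : Fintype (Ex m) := Fintype.ofFinite _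

/-- the coefficients of the logarithmic fields of the empty arrangement -/
noncomputable def coe0 (K : Type) [Field K] (A : Fin 0 → Fin 3 → K) (m : ℕ) :
    LRm A m ≃ₗ[K] (Fin 3 × Ex m → K) where
  toFun v := fun p => coeff p.2.1 (v.1 p.1)
  map_add' v w := by
    ext p
    simp
  map_smul' c v := by
    ext p
    simp
  invFun w := ⟨fun j => ∑ d : Ex m, monomial d.1 (w (j, d)),
    ⟨fun i => i.elim0, fun j => IsHomogeneous.sum _ _ _ fun d _ => isHomogeneous_monomial _ d.2⟩⟩
  left_inv v := by
    refine Subtype.ext (funext fun j => ?_)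
    show ∑ d : Ex m, monomial d.1 (coeff d.1 (v.1 j)) = v.1 j
    ext c
    rw [coeff_sum]
    simp only [coeff_monomial]
    by_cases hc : c.degree = m
    · rw [Finset.sum_eq_single (⟨c, hc⟩ : Ex m)]
      · simp
      · intro d _ hd
        rw [if_neg]
        rintro rfl
        exact hd rfl
      · intro h
        exact absurd (Finset.mem_univ _) h
    · have h0 : coeff c (v.1 j) = 0 := (v.2.2 j).coeff_eq_zero hc
      rw [h0]
      refine Finset.sum_eq_zero fun d _ => ?_
      rw [if_neg]
      rintro rfl
      exact hc d.2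
  right_inv w := by
    ext ⟨j, c⟩
    show coeff c.1 (∑ d : Ex m, monomial d.1 (w (j, d))) = w (j, c)
    rw [coeff_sum]
    simp only [coeff_monomial]
    rw [Finset.sum_eq_single c]
    · simp
    · intro d _ hd
      rw [if_neg]
      intro h
      exact hd (Subtype.ext h)
    · intro h
      exact absurd (Finset.mem_univ _) h

lemma rank0 (K : Type) [Field K] (A : Fin 0 → Fin 3 → K) (m : ℕ) :
    finrank K (LRm A m) = Fintype.card (Fin 3 × Ex m) := by
  rw [(coe0 K A m).finrank_eq, finrank_fintype_fun_eq_card]

lemma card_range_eq {α β γ : Type} (f : α → β) (g : α → γ) (h : ∀ i j, f i = f j ↔ g i = g j) :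
    Nat.card (Set.range f) = Nat.card (Set.range g) := by
  refine Nat.card_congr ((Setoid.quotientKerEquivRange f).symm.trans
    ((Quotient.congrRight ?_).trans (Setoid.quotientKerEquivRange g)))
  intro i j
  exact h i j

lemma span_eq_iff {K : Type} [Field K] (a x y : Fin 3 → K) :
    Submodule.span K {a, x} = Submodule.span K {a, y} ↔
      x ∈ Submodule.span K {a, y} ∧ y ∈ Submodule.span K {a, x} := by
  constructor
  · intro h
    constructor
    · rw [← h]; exact Submodule.subset_span (by simp)
    · rw [h]; exact Submodule.subset_span (by simp)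
  · rintro ⟨h1, h2⟩
    apply le_antisymm
    · rw [Submodule.span_le]
      rintro z (rfl | rfl)
      · exact Submodule.subset_span (by simp)
      · exact h1
    · rw [Submodule.span_le]
      rintro z (rfl | rfl)
      · exact Submodule.subset_span (by simp)
      · exact h2

lemma snoc_mapA {R R' : Type} [CommRing R] [CommRing R'] (f : R →+* R') {n : ℕ}
    (A : Fin (n + 1) → Fin 3 → R) :
    mapA f A = (Fin.snoc (α := fun _ => Fin 3 → R') (mapA f (Fin.init A)) (mapA f A (Fin.last n)) :
      Fin (n + 1) → Fin 3 → R') := by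
  funext i
  refine Fin.lastCases ?_ (fun i => ?_) i
  · rw [Fin.snoc_last]
  · rw [Fin.snoc_castSucc]
    rfl

lemma Simple.init {K : Type} [Field K] {n : ℕ} {A : Fin (n + 1) → Fin 3 → K} (h : Simple A) :
    Simple (Fin.init A) ∧ A (Fin.last n) ≠ 0 ∧ ∀ (i : Fin n) (t : K), Fin.init A i ≠ t • A (Fin.last n) := by
  refine ⟨⟨fun i => h.1 _, fun i j hij c => h.2 _ _ (fun h' => hij (Fin.castSucc_injective n h')) c⟩,
    h.1 _, fun i t => h.2 _ _ (Fin.castSucc_lt_last i).ne t⟩

lemma good_init {R : Type} [CommRing R] [IsLocalRing R] {n : ℕ} {A : Fin (n + 1) → Fin 3 → R}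
    (h : Good A) : Good (Fin.init A) :=
  ⟨(Simple.init h.1).1, fun i j l => h.2 i.castSucc j.castSucc l.castSucc⟩

theorem ex2 (hEX1 : S_EX1) (hPAT : S_PAT) : S_EX2 := by
  intro R _ _ _ F _ _ _ n
  induction n with
  | zero =>
    intro A _ m _
    rw [rank0, rank0]
  | succ n ih =>
    intro A hA m hm
    obtain ⟨hsF, hpat⟩ := hPAT R F (Fin (n + 1)) A hA
    have hsk := hA.1
    obtain ⟨f1, f2, f3⟩ := Simple.init hsF
    obtain ⟨k1, k2, k3⟩ := Simple.init hsk
    have eF := hEX1 F n (mapA (algebraMap R F) (Fin.init A)) (mapA (algebraMap R F) A (Fin.last n))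
      f1 f2 f3 m (by omega)
    have ek := hEX1 (IsLocalRing.ResidueField R) n (mapA (IsLocalRing.residue R) (Fin.init A))
      (mapA (IsLocalRing.residue R) A (Fin.last n)) k1 k2 k3 m (by omega)
    rw [← snoc_mapA] at eF ek
    have hi := ih (Fin.init A) (good_init hA) m (by omega)
    have hcard : Nat.card (Set.range fun i => Submodule.span F
        {mapA (algebraMap R F) A (Fin.last n), mapA (algebraMap R F) (Fin.init A) i}) =
        Nat.card (Set.range fun i => Submodule.span (IsLocalRing.ResidueField R)
        {mapA (IsLocalRing.residue R) A (Fin.last n), mapA (IsLocalRing.residue R) (Fin.init A) i}) := by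
      refine card_range_eq _ _ fun i j => ?_
      rw [span_eq_iff, span_eq_iff]
      exact and_congr (hpat (Fin.last n) j.castSucc i.castSucc)
        (hpat (Fin.last n) i.castSucc j.castSucc)
    omega

end Pool.Agent.H69.GR
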